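import Pool.Agent.Y386.IR.Stm

/-!
# Weighted families of independent sets bound the fractional chromatic number
-/

set_option autoImplicit false

namespace Pool.Agent.Y177.IR

open Pool.Agent.H692R2 Finset Pool.Agent.Y386.IR

theorem t_WFAM : S_WFAM := by
  classical
  intro V A _ _ H w J hw hI hc
  refine csInf_le (fracChi_bddBelow H) ⟨fun I => ∑ a with J a = I, w a,
    fun I => Finset.sum_nonneg fun a _ => hw a, fun I hne => ?_, fun v => ?_, ?_⟩
  · obtain ⟨a, ha, hwa⟩ := Finset.exists_ne_zero_of_sum_ne_zero hne
    rw [Finset.mem_filter] at ha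
    rw [← ha.2]
    exact hI a hwa
  · have h1 : ∑ I with v ∈ I, ∑ a with J a = I, w a = ∑ a with v ∈ J a, w a := by
      rw [← Finset.sum_fiberwise_of_maps_to (s := univ.filter fun a => v ∈ J a)
        (t := univ.filter fun I : Finset V => v ∈ I) (g := J) (fun a ha => by
          rw [Finset.mem_filter] at ha ⊢
          exact ⟨Finset.mem_univ _, ha.2⟩) w]
      refine Finset.sum_congr rfl fun I hI' => ?_
      rw [Finset.mem_filter] at hI'
      refine Finset.sum_congr ?_ fun _ _ => rfl
      ext a
      simp only [Finset.mem_filter, Finset.mem_univ, true_and]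
      constructor
      · intro h
        exact ⟨by rw [h]; exact hI'.2, h⟩
      · exact fun h => h.2
    have h2 := hc v
    calc (1 : ℝ) ≤ _ := h2
      _ = ∑ a with v ∈ J a, w a := by congr!
      _ = _ := by rw [← h1]
  · have h1 := Finset.sum_fiberwise (univ : Finset A) J w
    convert h1

end Pool.Agent.Y177.IR
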